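import Pool.Agent.Helper11.Q3.Stmts
import Pool.Agent.Helper1.EA.B6

/-!
# Project TF, part A1 (MP_a499ba_nt): blocks J1b and J1d

The odd squarefree integers divisible by a product of odd primes, and the lower bound `Q / 8`.
-/

set_option autoImplicit false

namespace Pool.Agent.Helper11.Q3

open Finset Pool.Agent.Helper5.RM

namespace J1bd

lemma le_sqrt_of_lt_one {x : ℝ} (hx : 0 ≤ x) (hx1 : x < 1) : x ≤ Real.sqrt x := by
  have h1 : Real.sqrt x ≤ 1 := by rw [Real.sqrt_le_one]; exact hx1.le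
  calc x = Real.sqrt x * Real.sqrt x := (Real.mul_self_sqrt hx).symm
    _ ≤ 1 * Real.sqrt x := mul_le_mul_of_nonneg_right h1 (Real.sqrt_nonneg x)
    _ = Real.sqrt x := one_mul _

/-- the recursion at a prime `p` -/
lemma rec_bound (p : ℕ) (hp : 2 ≤ p) (f g : ℕ → ℝ) (a E E' : ℝ) (ha : 0 ≤ a) (haE : a ≤ E')
    (hEE : E ≤ E' * (Real.sqrt p - 1)) (hg : ∀ x : ℝ, 0 ≤ x → |g ⌊x⌋₊ - a * x| ≤ E * Real.sqrt x)
    (hf0 : f 0 = 0) (hf : ∀ n, 0 < n → f n = g (n / p) - f (n / p)) :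
    ∀ x : ℝ, 0 ≤ x → |f ⌊x⌋₊ - a * (1 / ((p : ℝ) + 1)) * x| ≤ E' * Real.sqrt x := by
  have hp0 : (0 : ℝ) < p := by exact_mod_cast (by omega : 0 < p)
  have hsp : 0 < Real.sqrt p := Real.sqrt_pos.2 hp0
  have key : ∀ n : ℕ, ∀ x : ℝ, 0 ≤ x → ⌊x⌋₊ = n → |f n - a * (1 / ((p : ℝ) + 1)) * x| ≤ E' * Real.sqrt x := by
    intro n
    induction n using Nat.strong_induction_on with
    | _ n ih =>
      intro x hx hn
      rcases Nat.eq_zero_or_pos n with rfl | hn0
      · have hx1 : x < 1 := Nat.floor_eq_zero.1 hn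
        have h1 := le_sqrt_of_lt_one hx hx1
        have h2 : 1 / ((p : ℝ) + 1) ≤ 1 := by
          rw [div_le_one (by linarith)]
          linarith
        have h3 : 0 ≤ 1 / ((p : ℝ) + 1) := by positivity
        rw [hf0, zero_sub, abs_neg, abs_of_nonneg (by positivity)]
        calc a * (1 / ((p : ℝ) + 1)) * x ≤ a * 1 * Real.sqrt x := by gcongr
          _ = a * Real.sqrt x := by ring
          _ ≤ E' * Real.sqrt x := mul_le_mul_of_nonneg_right haE (Real.sqrt_nonneg x)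
      · have hfl : ⌊x / p⌋₊ = n / p := by rw [Nat.floor_div_natCast, hn]
        have hlt : n / p < n := Nat.div_lt_self hn0 (by omega)
        have h1 := ih (n / p) hlt (x / p) (by positivity) hfl
        have h2 := hg (x / p) (by positivity)
        rw [hfl] at h2
        rw [hf n hn0]
        have h3 : g (n / p) - f (n / p) - a * (1 / ((p : ℝ) + 1)) * x =
            (g (n / p) - a * (x / p)) - (f (n / p) - a * (1 / ((p : ℝ) + 1)) * (x / p)) := by
          field_simp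
          ring
        rw [h3]
        have h4 := abs_sub (g (n / p) - a * (x / p)) (f (n / p) - a * (1 / ((p : ℝ) + 1)) * (x / p))
        have h5 : Real.sqrt (x / p) = Real.sqrt x / Real.sqrt p := Real.sqrt_div hx _
        rw [h5] at h1 h2
        have h6 : E * (Real.sqrt x / Real.sqrt p) + E' * (Real.sqrt x / Real.sqrt p) ≤ E' * Real.sqrt x := by
          have h7 : E * (Real.sqrt x / Real.sqrt p) + E' * (Real.sqrt x / Real.sqrt p) =
              (E + E') * Real.sqrt x / Real.sqrt p := by ring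
          rw [h7, div_le_iff₀ hsp]
          have h8 : E + E' ≤ E' * Real.sqrt p := by linarith
          calc (E + E') * Real.sqrt x ≤ (E' * Real.sqrt p) * Real.sqrt x :=
                mul_le_mul_of_nonneg_right h8 (Real.sqrt_nonneg x)
            _ = E' * Real.sqrt x * Real.sqrt p := by ring
        linarith
  intro x hx
  exact key _ x hx rfl

/-- the recursion for the odd numbers -/
lemma rec_two (f g : ℕ → ℝ) (a E E' : ℝ) (ha : 0 ≤ a) (haE : a ≤ E')
    (hEE : 4 * E ≤ E') (hg : ∀ x : ℝ, 0 ≤ x → |g ⌊x⌋₊ - a * x| ≤ E * Real.sqrt x)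
    (hf0 : f 0 = 0) (hf : ∀ n, 0 < n → f n = g n - f (n / 2)) :
    ∀ x : ℝ, 0 ≤ x → |f ⌊x⌋₊ - a * (2 / 3) * x| ≤ E' * Real.sqrt x := by
  have hs2 : (7 / 5 : ℝ) ≤ Real.sqrt 2 := by
    apply Real.le_sqrt_of_sq_le
    norm_num
  have hsp : 0 < Real.sqrt 2 := by linarith
  have key : ∀ n : ℕ, ∀ x : ℝ, 0 ≤ x → ⌊x⌋₊ = n → |f n - a * (2 / 3) * x| ≤ E' * Real.sqrt x := by
    intro n
    induction n using Nat.strong_induction_on with
    | _ n ih =>
      intro x hx hn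
      rcases Nat.eq_zero_or_pos n with rfl | hn0
      · have hx1 : x < 1 := Nat.floor_eq_zero.1 hn
        have h1 := le_sqrt_of_lt_one hx hx1
        rw [hf0, zero_sub, abs_neg, abs_of_nonneg (by positivity)]
        calc a * (2 / 3) * x ≤ a * 1 * Real.sqrt x := by gcongr; norm_num
          _ = a * Real.sqrt x := by ring
          _ ≤ E' * Real.sqrt x := mul_le_mul_of_nonneg_right haE (Real.sqrt_nonneg x)
      · have hfl : ⌊x / (2 : ℕ)⌋₊ = n / 2 := by rw [Nat.floor_div_natCast, hn]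
        have hfl' : ⌊x / 2⌋₊ = n / 2 := by exact_mod_cast hfl
        have hlt : n / 2 < n := Nat.div_lt_self hn0 (by omega)
        have h1 := ih (n / 2) hlt (x / 2) (by positivity) hfl'
        have h2 := hg x hx
        rw [hn] at h2
        rw [hf n hn0]
        have h3 : g n - f (n / 2) - a * (2 / 3) * x =
            (g n - a * x) - (f (n / 2) - a * (2 / 3) * (x / 2)) := by ring
        rw [h3]
        have h4 := abs_sub (g n - a * x) (f (n / 2) - a * (2 / 3) * (x / 2))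
        have h5 : Real.sqrt (x / 2) = Real.sqrt x / Real.sqrt 2 := Real.sqrt_div hx _
        rw [h5] at h1
        have h6 : E * Real.sqrt x + E' * (Real.sqrt x / Real.sqrt 2) ≤ E' * Real.sqrt x := by
          have h7 : Real.sqrt x / Real.sqrt 2 ≤ Real.sqrt x * (5 / 7) := by
            rw [div_le_iff₀ hsp]
            nlinarith [Real.sqrt_nonneg x]
          have h8 : E' * (Real.sqrt x / Real.sqrt 2) ≤ E' * (Real.sqrt x * (5 / 7)) :=
            mul_le_mul_of_nonneg_left h7 (by linarith)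
          have h9 : E * Real.sqrt x ≤ (E' / 4) * Real.sqrt x :=
            mul_le_mul_of_nonneg_right (by linarith) (Real.sqrt_nonneg x)
          have h10 : 0 ≤ E' * Real.sqrt x := mul_nonneg (by linarith) (Real.sqrt_nonneg x)
          linarith
        linarith
  intro x hx
  exact key _ x hx rfl

/-- the count -/
noncomputable def B (S : Finset ℕ) (n : ℕ) : ℕ := ((OS n).filter (fun q => (∏ p ∈ S, p) ∣ q)).card

lemma mem_OS {n q : ℕ} : q ∈ OS n ↔ (1 ≤ q ∧ q ≤ n) ∧ Odd q ∧ Squarefree q := by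
  unfold OS
  rw [mem_filter, mem_Icc]

lemma B_zero (S : Finset ℕ) : B S 0 = 0 := by
  unfold B OS
  simp

/-- the recursion for the counts -/
lemma B_insert (S : Finset ℕ) (p : ℕ) (hp : p.Prime) (hp2 : p ≠ 2) (hpS : p ∉ S) (hS : ∀ r ∈ S, r.Prime) (n : ℕ) :
    B (insert p S) n + B (insert p S) (n / p) = B S (n / p) := by
  have hcop : Nat.Coprime p (∏ r ∈ S, r) := by
    refine Nat.Coprime.prod_right fun r hr => ?_
    rw [Nat.coprime_primes hp (hS r hr)]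
    rintro rfl
    exact hpS hr
  have h1 : B (insert p S) n = ((OS (n / p)).filter (fun m => (∏ r ∈ S, r) ∣ m ∧ ¬ p ∣ m)).card := by
    unfold B
    rw [prod_insert hpS]
    symm
    refine card_bij (fun m _ => p * m) ?_ ?_ ?_
    · intro m hm
      rw [mem_filter, mem_OS] at hm
      obtain ⟨⟨⟨h1, h2⟩, h3, h4⟩, h5, h6⟩ := hm
      rw [mem_filter, mem_OS]
      refine ⟨⟨⟨Nat.mul_pos hp.pos h1, ?_⟩, ?_, ?_⟩, Nat.mul_dvd_mul_left p h5⟩
      · rw [Nat.le_div_iff_mul_le hp.pos] at h2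
        linarith
      · exact (hp.odd_of_ne_two hp2).mul h3
      · rw [Nat.squarefree_mul_iff]
        exact ⟨(Nat.Prime.coprime_iff_not_dvd hp).2 h6, hp.squarefree, h4⟩
    · intro m _ m' _ h
      exact Nat.eq_of_mul_eq_mul_left hp.pos h
    · intro q hq
      rw [mem_filter, mem_OS] at hq
      obtain ⟨⟨⟨h1, h2⟩, h3, h4⟩, h5⟩ := hq
      obtain ⟨m, rfl⟩ := (Dvd.intro _ rfl : p ∣ p * ∏ r ∈ S, r).trans h5
      rw [Nat.squarefree_mul_iff] at h4
      refine ⟨m, ?_, rfl⟩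
      rw [mem_filter, mem_OS]
      refine ⟨⟨⟨Nat.pos_of_ne_zero ?_, ?_⟩, (Nat.odd_mul.1 h3).2, h4.2.2⟩, ?_, (Nat.Prime.coprime_iff_not_dvd hp).1 h4.1⟩
      · rintro rfl; omega
      · rw [Nat.le_div_iff_mul_le hp.pos]
        linarith
      · exact Nat.dvd_of_mul_dvd_mul_left hp.pos h5
  have h2 : B (insert p S) (n / p) = ((OS (n / p)).filter (fun m => (∏ r ∈ S, r) ∣ m ∧ p ∣ m)).card := by
    unfold B
    rw [prod_insert hpS]
    congr 1
    ext m
    rw [mem_filter, mem_filter]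
    constructor
    · rintro ⟨h1, h2⟩
      exact ⟨h1, (Dvd.intro_left _ rfl : (∏ r ∈ S, r) ∣ p * ∏ r ∈ S, r).trans h2,
        (Dvd.intro _ rfl : p ∣ p * ∏ r ∈ S, r).trans h2⟩
    · rintro ⟨h1, h2, h3⟩
      exact ⟨h1, Nat.Coprime.mul_dvd_of_dvd_of_dvd hcop h3 h2⟩
  rw [h1, h2]
  unfold B
  rw [← filter_filter, ← filter_filter, add_comm]
  exact card_filter_add_card_filter_not (s := (OS (n / p)).filter (fun m => (∏ r ∈ S, r) ∣ m)) (fun m => p ∣ m)

/-- the odd squarefree numbers among the squarefree numbers -/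
lemma B_empty (n : ℕ) : B ∅ n + B ∅ (n / 2) = ((Icc 1 n).filter Squarefree).card := by
  have h1 : B ∅ n = (((Icc 1 n).filter Squarefree).filter (fun q => Odd q)).card := by
    unfold B
    congr 1
    ext q
    rw [mem_filter, mem_OS, mem_filter, mem_filter, mem_Icc, prod_empty]
    simp only [one_dvd, and_true]
    tauto
  have h2 : B ∅ (n / 2) = (((Icc 1 n).filter Squarefree).filter (fun q => ¬ Odd q)).card := by
    unfold B
    refine card_bij (fun m _ => 2 * m) ?_ ?_ ?_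
    · intro m hm
      rw [mem_filter, mem_OS] at hm
      obtain ⟨⟨⟨h1, h2⟩, h3, h4⟩, -⟩ := hm
      rw [mem_filter, mem_filter, mem_Icc]
      refine ⟨⟨⟨by omega, by omega⟩, ?_⟩, ?_⟩
      · rw [Nat.squarefree_mul_iff]
        exact ⟨(Nat.coprime_two_left).2 h3, Nat.prime_two.squarefree, h4⟩
      · rw [Nat.not_odd_iff_even]
        exact even_two_mul m
    · intro m _ m' _ h
      exact Nat.eq_of_mul_eq_mul_left two_pos h
    · intro q hq
      rw [mem_filter, mem_filter, mem_Icc, Nat.not_odd_iff_even] at hq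
      obtain ⟨⟨⟨h1, h2⟩, h3⟩, h4⟩ := hq
      obtain ⟨m, rfl⟩ := even_iff_two_dvd.1 h4
      rw [Nat.squarefree_mul_iff] at h3
      refine ⟨m, ?_, rfl⟩
      rw [mem_filter, mem_OS, prod_empty]
      exact ⟨⟨⟨by omega, by omega⟩, Nat.coprime_two_left.1 h3.1, h3.2.2⟩, one_dvd _⟩
  rw [h1, h2]
  exact card_filter_add_card_filter_not _

/-- the density of the odd squarefree numbers -/
noncomputable def c0 : ℝ := 6 / Real.pi ^ 2 * (2 / 3)

lemma six_pi : 0 ≤ 6 / Real.pi ^ 2 ∧ 6 / Real.pi ^ 2 ≤ 1 := by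
  refine ⟨by positivity, ?_⟩
  rw [div_le_one (by positivity)]
  nlinarith [Real.pi_gt_three]

lemma base (x : ℝ) (hx : 0 ≤ x) : |(B ∅ ⌊x⌋₊ : ℝ) - c0 * x| ≤ 24 * Real.sqrt x := by
  obtain ⟨hpi0, hpi1⟩ := six_pi
  refine rec_two (fun n => (B ∅ n : ℝ)) (fun n => ((((Icc 1 n).filter Squarefree).card : ℕ) : ℝ)) (6 / Real.pi ^ 2) 6 24
    hpi0 (by linarith) (by norm_num) ?_ ?_ ?_ x hx
  · intro y hy
    have h1 := Pool.Agent.Helper1.EA.sqf_real ⌊y⌋₊
    have h2 : (⌊y⌋₊ : ℝ) ≤ y := Nat.floor_le hy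
    have h3 : y < ⌊y⌋₊ + 1 := Nat.lt_floor_add_one y
    have h4 : Real.sqrt ⌊y⌋₊ ≤ Real.sqrt y := Real.sqrt_le_sqrt h2
    have h5 : y - ⌊y⌋₊ ≤ Real.sqrt y := by
      rcases lt_or_ge y 1 with h | h
      · have := le_sqrt_of_lt_one hy h
        have h0 : (0 : ℝ) ≤ ⌊y⌋₊ := Nat.cast_nonneg _
        linarith
      · have : 1 ≤ Real.sqrt y := Real.one_le_sqrt.2 h
        linarith
    have h6 : 6 / Real.pi ^ 2 * (y - ⌊y⌋₊) ≤ 1 * Real.sqrt y :=
      mul_le_mul hpi1 h5 (by linarith) (by norm_num)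
    have h7 : 0 ≤ 6 / Real.pi ^ 2 * (y - ⌊y⌋₊) := mul_nonneg hpi0 (by linarith)
    rw [abs_le] at h1 ⊢
    constructor <;> linarith [h1.1, h1.2]
  · show ((B ∅ 0 : ℕ) : ℝ) = 0
    rw [B_zero]
    simp
  · intro n _
    have := B_empty n
    show ((B ∅ n : ℕ) : ℝ) = _ - ((B ∅ (n / 2) : ℕ) : ℝ)
    rw [← this]
    push_cast
    ring

lemma bp_nonneg (p : ℕ) : 0 ≤ bp p := by
  unfold bp
  split_ifs
  · exact le_refl 0
  · positivity

lemma bp_le_one (p : ℕ) : bp p ≤ 1 := by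
  unfold bp
  split_ifs
  · norm_num
  · rw [div_le_one (by positivity)]
    have : (0 : ℝ) ≤ p := Nat.cast_nonneg p
    linarith

lemma prod_bp_nonneg (S : Finset ℕ) : 0 ≤ ∏ p ∈ S, bp p := prod_nonneg fun p _ => bp_nonneg p

lemma prod_bp_le_one (S : Finset ℕ) : ∏ p ∈ S, bp p ≤ 1 := prod_le_one (fun p _ => bp_nonneg p) fun p _ => bp_le_one p

lemma c0_bounds : 0 ≤ c0 ∧ c0 ≤ 1 := by
  obtain ⟨h1, h2⟩ := six_pi
  unfold c0
  constructor
  · positivity
  · linarith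

lemma unif (S : Finset ℕ) (hS : ∀ p ∈ S, p.Prime ∧ p ≠ 2) :
    ∀ x : ℝ, 0 ≤ x → |(B S ⌊x⌋₊ : ℝ) - c0 * (∏ p ∈ S, bp p) * x| ≤ (if 3 ∈ S then 36 else 24) * Real.sqrt x := by
  induction S using Finset.induction_on with
  | empty =>
    intro x hx
    have := base x hx
    simpa using this
  | @insert p S hpS ih =>
    have hS' : ∀ r ∈ S, r.Prime ∧ r ≠ 2 := fun r hr => hS r (mem_insert_of_mem hr)
    obtain ⟨hp, hp2⟩ := hS p (mem_insert_self p S)
    have ih := ih hS'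
    intro x hx
    have hc := c0_bounds
    have ha : 0 ≤ c0 * ∏ r ∈ S, bp r := mul_nonneg hc.1 (prod_bp_nonneg S)
    have ha1 : c0 * ∏ r ∈ S, bp r ≤ 1 := by
      calc c0 * ∏ r ∈ S, bp r ≤ 1 * 1 := mul_le_mul hc.2 (prod_bp_le_one S) (prod_bp_nonneg S) (by norm_num)
        _ = 1 := one_mul 1
    have hbp : bp p = 1 / ((p : ℝ) + 1) := by
      unfold bp
      rw [if_neg hp2]
    have hp3 : 3 ≤ p := by
      have := hp.two_le
      omega
    have hmain := rec_bound p (by omega) (fun n => (B (insert p S) n : ℝ)) (fun n => (B S n : ℝ)) (c0 * ∏ r ∈ S, bp r)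
      (if 3 ∈ S then 36 else 24) (if 3 ∈ insert p S then 36 else 24) ha ?_ ?_ ih ?_ ?_ x hx
    · rw [prod_insert hpS, hbp]
      have h1 : c0 * (1 / ((p : ℝ) + 1) * ∏ r ∈ S, bp r) * x = c0 * (∏ r ∈ S, bp r) * (1 / ((p : ℝ) + 1)) * x := by ring
      rw [h1]
      exact hmain
    · split_ifs <;> linarith
    · rcases Nat.lt_or_ge p 4 with h | h
      · have hp3' : p = 3 := by omega
        subst hp3'
        rw [if_neg hpS, if_pos (mem_insert_self 3 S)]
        have h17 : (17 / 10 : ℝ) ≤ Real.sqrt 3 := by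
          apply Real.le_sqrt_of_sq_le
          norm_num
        rw [Nat.cast_ofNat]
        linarith
      · have hne : p ≠ 3 := by omega
        have h2 : (2 : ℝ) ≤ Real.sqrt p := by
          apply Real.le_sqrt_of_sq_le
          have : (4 : ℝ) ≤ p := by exact_mod_cast h
          linarith
        have h3 : (3 ∈ insert p S) ↔ 3 ∈ S := by
          rw [mem_insert]
          constructor
          · rintro (h | h)
            · exact absurd h.symm hne
            · exact h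
          · exact Or.inr
        simp only [h3]
        split_ifs <;> linarith
    · show ((B (insert p S) 0 : ℕ) : ℝ) = 0
      rw [B_zero]
      simp
    · intro n _
      have := B_insert S p hp hp2 hpS (fun r hr => (hS' r hr).1) n
      show ((B (insert p S) n : ℕ) : ℝ) = ((B S (n / p) : ℕ) : ℝ) - ((B (insert p S) (n / p) : ℕ) : ℝ)
      rw [← this]
      push_cast
      ring

lemma B_empty_card (Q : ℕ) : B ∅ Q = (OS Q).card := by
  unfold B
  rw [prod_empty]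
  simp

/-- the number of odd `m ≤ M` -/
lemma card_odd (M : ℕ) : ((Icc 1 M).filter (fun m => Odd m)).card = (M + 1) / 2 := by
  have h1 : (Icc 1 M).filter (fun m => Odd m) = (range ((M + 1) / 2)).image (fun j => 2 * j + 1) := by
    ext m
    rw [mem_filter, mem_Icc, mem_image]
    constructor
    · rintro ⟨⟨h1, h2⟩, k, rfl⟩
      exact ⟨k, by rw [mem_range]; omega, rfl⟩
    · rintro ⟨k, hk, rfl⟩
      rw [mem_range] at hk
      exact ⟨⟨by omega, by omega⟩, k, rfl⟩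
  rw [h1, card_image_of_injective _ (fun a b h => by simpa using h), card_range]

/-- the odd multiples of an odd square -/
lemma card_sq (Q k : ℕ) (hk : Odd k) : ((Icc 1 Q).filter (fun n => Odd n ∧ k ^ 2 ∣ n)).card ≤ (Q / k ^ 2 + 1) / 2 := by
  rw [← card_odd]
  have hk0 : 0 < k ^ 2 := pow_pos hk.pos 2
  refine card_le_card_of_surjOn (fun m => k ^ 2 * m) ?_
  intro n hn
  rw [mem_coe, mem_filter, mem_Icc] at hn
  obtain ⟨⟨h1, h2⟩, h3, m, rfl⟩ := hn
  refine ⟨m, ?_, rfl⟩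
  rw [mem_coe, mem_filter, mem_Icc]
  refine ⟨⟨Nat.pos_of_ne_zero ?_, ?_⟩, (Nat.odd_mul.1 h3).2⟩
  · rintro rfl; omega
  · rw [Nat.le_div_iff_mul_le hk0]
    linarith

lemma tele (J : ℕ) : ∑ j ∈ Icc 1 J, 1 / (2 * (j : ℝ) + 1) ^ 2 ≤ 1 / 4 - 1 / (4 * ((J : ℝ) + 1)) := by
  induction J with
  | zero => simp
  | succ J ih =>
    rw [sum_Icc_succ_top (by omega)]
    have h1 : 1 / (2 * ((J + 1 : ℕ) : ℝ) + 1) ^ 2 ≤ 1 / (4 * ((J : ℝ) + 1)) - 1 / (4 * (((J + 1 : ℕ) : ℝ) + 1)) := by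
      push_cast
      have hJ : (0 : ℝ) ≤ J := Nat.cast_nonneg J
      have h2 : 1 / (4 * ((J : ℝ) + 1)) - 1 / (4 * ((J : ℝ) + 1 + 1)) = 1 / (4 * ((J : ℝ) + 1) * ((J : ℝ) + 2)) := by
        field_simp
        ring
      rw [h2]
      apply one_div_le_one_div_of_le (by positivity)
      nlinarith
    linarith

/-- the sieve bound -/
lemma sieve (Q J : ℕ) (hJ : Nat.sqrt Q ≤ 2 * J + 2) :
    (Q + 1) / 2 ≤ (OS Q).card + ∑ j ∈ Icc 1 J, (Q / (2 * j + 1) ^ 2 + 1) / 2 := by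
  rw [← card_odd]
  have hsub : (Icc 1 Q).filter (fun m => Odd m) ⊆ OS Q ∪ (Icc 1 J).biUnion
      (fun j => (Icc 1 Q).filter (fun n => Odd n ∧ (2 * j + 1) ^ 2 ∣ n)) := by
    intro n hn
    rw [mem_filter, mem_Icc] at hn
    obtain ⟨⟨h1, h2⟩, h3⟩ := hn
    rw [mem_union]
    by_cases hsq : Squarefree n
    · exact Or.inl (mem_OS.2 ⟨⟨h1, h2⟩, h3, hsq⟩)
    · right
      rw [Nat.squarefree_iff_prime_squarefree] at hsq
      push Not at hsq
      obtain ⟨p, hp, hpn⟩ := hsq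
      have hpo : Odd p := by
        rw [← Nat.not_even_iff_odd]
        intro he
        have h4 : Even n := by
          obtain ⟨c, rfl⟩ := hpn
          rw [mul_assoc]
          exact he.mul_right _
        exact (Nat.not_even_iff_odd.2 h3) h4
      obtain ⟨j, rfl⟩ := hpo
      have h5 : (2 * j + 1) * (2 * j + 1) ≤ Q := (Nat.le_of_dvd (by omega) hpn).trans h2
      have h6 : 2 * j + 1 ≤ Nat.sqrt Q := Nat.le_sqrt.2 h5
      have h7 := hp.two_le
      rw [mem_biUnion]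
      refine ⟨j, mem_Icc.2 ⟨by omega, by omega⟩, ?_⟩
      rw [mem_filter, mem_Icc, pow_two]
      exact ⟨⟨h1, h2⟩, h3, hpn⟩
  refine (card_le_card hsub).trans ((card_union_le _ _).trans (Nat.add_le_add_left (card_biUnion_le.trans ?_) _))
  exact sum_le_sum fun j _ => card_sq Q (2 * j + 1) ⟨j, rfl⟩

lemma half_le (a : ℕ) : (((a + 1) / 2 : ℕ) : ℝ) ≤ ((a : ℝ) + 1) / 2 := by
  have h1 : 2 * ((a + 1) / 2) ≤ a + 1 := by omega
  have h2 : (2 : ℝ) * (((a + 1) / 2 : ℕ) : ℝ) ≤ (a : ℝ) + 1 := by exact_mod_cast h1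
  linarith

end J1bd

open J1bd in
theorem j1b : StmtJ1b := by
  refine ⟨60, by norm_num, fun Q S hS => ?_⟩
  have h1 := unif S hS Q (Nat.cast_nonneg Q)
  have h2 := base Q (Nat.cast_nonneg Q)
  rw [Nat.floor_natCast] at h1 h2
  have h3 : |(B S Q : ℝ) - c0 * (∏ p ∈ S, bp p) * Q| ≤ 36 * Real.sqrt Q := by
    refine h1.trans (mul_le_mul_of_nonneg_right ?_ (Real.sqrt_nonneg _))
    split_ifs <;> norm_num
  have h4 : |c0 * (∏ p ∈ S, bp p) * Q - (B ∅ Q : ℝ) * ∏ p ∈ S, bp p| ≤ 24 * Real.sqrt Q := by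
    have h5 : c0 * (∏ p ∈ S, bp p) * Q - (B ∅ Q : ℝ) * ∏ p ∈ S, bp p = -(((B ∅ Q : ℝ) - c0 * Q) * ∏ p ∈ S, bp p) := by ring
    rw [h5, abs_neg, abs_mul, abs_of_nonneg (prod_bp_nonneg S)]
    calc |(B ∅ Q : ℝ) - c0 * Q| * ∏ p ∈ S, bp p ≤ (24 * Real.sqrt Q) * 1 :=
          mul_le_mul h2 (prod_bp_le_one S) (prod_bp_nonneg S) (by positivity)
      _ = 24 * Real.sqrt Q := mul_one _
  have h5 := abs_sub_le (B S Q : ℝ) (c0 * (∏ p ∈ S, bp p) * Q) ((B ∅ Q : ℝ) * ∏ p ∈ S, bp p)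
  rw [B_empty_card] at h5 h4
  have h6 : B S Q = ((OS Q).filter (fun q => (∏ p ∈ S, p) ∣ q)).card := rfl
  rw [← h6]
  linarith

open J1bd in
theorem j1d : StmtJ1d := by
  intro Q
  rcases Nat.eq_zero_or_pos Q with rfl | hQ
  · simp
  have hs1 : 1 ≤ Nat.sqrt Q := Nat.sqrt_pos.2 hQ
  set J := (Nat.sqrt Q - 1) / 2 with hJ
  have h1 := sieve Q J (by omega)
  have h2 : (((Q + 1) / 2 : ℕ) : ℝ) ≤ ((OS Q).card : ℝ) + ∑ j ∈ Icc 1 J, (((Q / (2 * j + 1) ^ 2 + 1) / 2 : ℕ) : ℝ) := by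
    exact_mod_cast h1
  have h3 : (Q : ℝ) / 2 ≤ (((Q + 1) / 2 : ℕ) : ℝ) := by
    have h4 : Q ≤ 2 * ((Q + 1) / 2) := by omega
    have h5 : (Q : ℝ) ≤ 2 * (((Q + 1) / 2 : ℕ) : ℝ) := by exact_mod_cast h4
    linarith
  have hQ0 : (0 : ℝ) ≤ Q := Nat.cast_nonneg Q
  have h4 : ∑ j ∈ Icc 1 J, (((Q / (2 * j + 1) ^ 2 + 1) / 2 : ℕ) : ℝ) ≤ (Q : ℝ) / 8 + J / 2 := by
    calc ∑ j ∈ Icc 1 J, (((Q / (2 * j + 1) ^ 2 + 1) / 2 : ℕ) : ℝ)
        ≤ ∑ j ∈ Icc 1 J, ((Q : ℝ) / 2 * (1 / (2 * (j : ℝ) + 1) ^ 2) + 1 / 2) := by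
          refine sum_le_sum fun j _ => ?_
          have h5 := half_le (Q / (2 * j + 1) ^ 2)
          have h6 : ((Q / (2 * j + 1) ^ 2 : ℕ) : ℝ) ≤ (Q : ℝ) / (((2 * j + 1) ^ 2 : ℕ) : ℝ) := Nat.cast_div_le
          push_cast at h5 h6 ⊢
          have h7 : (Q : ℝ) / 2 * (1 / (2 * (j : ℝ) + 1) ^ 2) = ((Q : ℝ) / (2 * (j : ℝ) + 1) ^ 2) / 2 := by ring
          rw [h7]
          linarith
      _ = (Q : ℝ) / 2 * ∑ j ∈ Icc 1 J, 1 / (2 * (j : ℝ) + 1) ^ 2 + J / 2 := by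
          rw [sum_add_distrib, ← mul_sum, sum_const, Nat.card_Icc, nsmul_eq_mul, Nat.add_sub_cancel]
          ring
      _ ≤ (Q : ℝ) / 2 * (1 / 4) + J / 2 := by
          have h5 := tele J
          have h6 : 0 ≤ 1 / (4 * ((J : ℝ) + 1)) := by positivity
          have h7 : ∑ j ∈ Icc 1 J, 1 / (2 * (j : ℝ) + 1) ^ 2 ≤ 1 / 4 := by linarith
          have h8 := mul_le_mul_of_nonneg_left h7 (by linarith : (0 : ℝ) ≤ (Q : ℝ) / 2)
          linarith
      _ = (Q : ℝ) / 8 + J / 2 := by ring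
  have h5 : 2 * (J : ℝ) + 1 ≤ Nat.sqrt Q := by
    have : 2 * J + 1 ≤ Nat.sqrt Q := by omega
    exact_mod_cast this
  have h6 : (Nat.sqrt Q : ℝ) * Nat.sqrt Q ≤ Q := by exact_mod_cast Nat.sqrt_le Q
  nlinarith [sq_nonneg ((Nat.sqrt Q : ℝ) - 1)]

end Pool.Agent.Helper11.Q3
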